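import Mathlib

/-!
# MP_a75eec_co (Berge–Füredi): few large edges at each vertex

A linear hypergraph in which every vertex `v` of every edge `e` lies in at most `|e|` edges of size
at least `|e|` has chromatic index at most `max_v |N[v]|`.
-/

set_option autoImplicit false

namespace Pool.Agent.Results.MP_a75eec_co.FewLargeEdges

open Finset

theorem step {n : ℕ} (S : Finset (Finset (Fin n))) (a : Finset (Fin n)) (ha : a ∉ S)
    (h2 : 2 ≤ a.card) (hmin : ∀ f ∈ S, a.card ≤ f.card)
    (hlin : ∀ e ∈ insert a S, ∀ f ∈ insert a S, e ≠ f → (e ∩ f).card ≤ 1)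
    (hfew : ∀ v ∈ a, (S.filter (fun f => v ∈ f)).card ≤ a.card - 1) (D : ℕ)
    (hD : ∀ v, (((insert a S).filter (fun e => v ∈ e)).biUnion id).card ≤ D) :
    (S.filter (fun f => (a ∩ f).Nonempty)).card < D := by
  classical
  obtain ⟨v0, hv0, hmax⟩ := exists_max_image a (fun v => (S.filter (fun f => v ∈ f)).card)
    (card_pos.1 (by omega))
  set m := (S.filter (fun f => v0 ∈ f)).card with hm
  -- neighbours
  have h1 : (S.filter (fun f => (a ∩ f).Nonempty)).card ≤ a.card * m := by
    have hsub : S.filter (fun f => (a ∩ f).Nonempty) ⊆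
        a.biUnion (fun v => S.filter (fun f => v ∈ f)) := by
      intro f hf
      rw [mem_filter] at hf
      obtain ⟨v, hv⟩ := hf.2
      rw [mem_inter] at hv
      exact mem_biUnion.2 ⟨v, hv.1, mem_filter.2 ⟨hf.1, hv.2⟩⟩
    refine (card_le_card hsub).trans (card_biUnion_le.trans ?_)
    calc ∑ v ∈ a, (S.filter (fun f => v ∈ f)).card ≤ ∑ _v ∈ a, m := sum_le_sum fun v hv => hmax v hv
      _ = a.card * m := by rw [sum_const, smul_eq_mul]
  -- the neighbourhood of `v0`
  set T := (insert a S).filter (fun e => v0 ∈ e) with hT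
  have hTcard : T.card = m + 1 := by
    rw [hT, filter_insert, if_pos hv0, card_insert_of_notMem]
    intro h
    exact ha (mem_filter.1 h).1
  have h3 : 1 + (m + 1) * (a.card - 1) ≤ D := by
    have hdis : ∀ e ∈ T, ∀ f ∈ T, e ≠ f → Disjoint (e.erase v0) (f.erase v0) := by
      intro e he f hf hne
      rw [hT, mem_filter] at he hf
      have hc := hlin e he.1 f hf.1 hne
      rw [disjoint_left]
      intro x hx hx'
      rw [mem_erase] at hx hx'
      exact hx.1 (card_le_one.1 hc x (mem_inter.2 ⟨hx.2, hx'.2⟩) v0
        (mem_inter.2 ⟨he.2, hf.2⟩))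
    have hcard : (T.biUnion (fun f => f.erase v0)).card = ∑ f ∈ T, (f.erase v0).card :=
      card_biUnion hdis
    have hge : ∑ f ∈ T, (f.erase v0).card ≥ T.card * (a.card - 1) := by
      rw [← smul_eq_mul, ← sum_const]
      refine sum_le_sum fun f hf => ?_
      rw [hT, mem_filter] at hf
      rw [card_erase_of_mem hf.2]
      have : a.card ≤ f.card := by
        rcases mem_insert.1 hf.1 with rfl | h
        · exact le_refl _
        · exact hmin f h
      omega
    have hnot : v0 ∉ T.biUnion (fun f => f.erase v0) := by
      intro h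
      obtain ⟨f, _, hf⟩ := mem_biUnion.1 h
      exact (mem_erase.1 hf).1 rfl
    have hsub : insert v0 (T.biUnion (fun f => f.erase v0)) ⊆ T.biUnion id := by
      intro x hx
      rcases mem_insert.1 hx with rfl | hx
      · exact mem_biUnion.2 ⟨a, by rw [hT, mem_filter]; exact ⟨mem_insert_self a S, hv0⟩, hv0⟩
      · obtain ⟨f, hf, hxf⟩ := mem_biUnion.1 hx
        exact mem_biUnion.2 ⟨f, hf, (mem_erase.1 hxf).2⟩
    have h4 := card_le_card hsub
    rw [card_insert_of_notMem hnot, hcard] at h4
    have h5 := hD v0
    rw [← hT] at h5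
    rw [hTcard] at hge
    omega
  have hmle : m ≤ a.card - 1 := hfew v0 hv0
  obtain ⟨r, hr⟩ : ∃ r, a.card = r + 1 := ⟨a.card - 1, by omega⟩
  rw [hr] at h1 h3 hmle
  simp only [Nat.add_sub_cancel] at h3 hmle
  have h6 : (r + 1) * m ≤ (m + 1) * r := by nlinarith
  omega

theorem result :
    ∀ (n : ℕ) (H : Finset (Finset (Fin n))),
      (∀ e ∈ H, 2 ≤ e.card) →
      (∀ e ∈ H, ∀ f ∈ H, e ≠ f → (e ∩ f).card ≤ 1) →
      (∀ e ∈ H, ∀ v ∈ e, (H.filter (fun f => v ∈ f ∧ e.card ≤ f.card)).card ≤ e.card) →
      ∀ D : ℕ, (∀ v : Fin n, ((H.filter (fun e => v ∈ e)).biUnion id).card ≤ D) →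
      ∃ c : Finset (Fin n) → ℕ, (∀ e ∈ H, c e < D) ∧
        (∀ e ∈ H, ∀ f ∈ H, e ≠ f → (e ∩ f).Nonempty → c e ≠ c f) := by
  classical
  intro n H h2 hlin hfew D hD
  have main : ∀ K ⊆ H, ∃ c : Finset (Fin n) → ℕ, (∀ e ∈ K, c e < D) ∧
      (∀ e ∈ K, ∀ f ∈ K, e ≠ f → (e ∩ f).Nonempty → c e ≠ c f) := by
    intro K
    induction K using Finset.induction_on_min_value (fun e : Finset (Fin n) => e.card) with
    | empty => intro _; exact ⟨fun _ => 0, by simp, by simp⟩
    | insert a S ha hmin ih =>
      intro hK
      obtain ⟨c, hc1, hc2⟩ := ih ((subset_insert a S).trans hK)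
      have haH : a ∈ H := hK (mem_insert_self a S)
      have hlt := step S a ha (h2 a haH) hmin
        (fun e he f hf => hlin e (hK he) f (hK hf))
        (by
          intro v hv
          have h3 := hfew a haH v hv
          have h4 : (insert a (S.filter (fun f => v ∈ f))) ⊆
              H.filter (fun f => v ∈ f ∧ a.card ≤ f.card) := by
            intro f hf
            rcases mem_insert.1 hf with rfl | hf
            · exact mem_filter.2 ⟨haH, hv, le_refl _⟩
            · rw [mem_filter] at hf
              exact mem_filter.2 ⟨hK (mem_insert_of_mem hf.1), hf.2, hmin f hf.1⟩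
          have h5 := card_le_card h4
          rw [card_insert_of_notMem (fun h => ha (mem_filter.1 h).1)] at h5
          omega) D
        (by
          intro v
          refine le_trans (card_le_card ?_) (hD v)
          intro x hx
          obtain ⟨e, he, hxe⟩ := mem_biUnion.1 hx
          rw [mem_filter] at he
          exact mem_biUnion.2 ⟨e, mem_filter.2 ⟨hK he.1, he.2⟩, hxe⟩)
      set Nb := S.filter (fun f => (a ∩ f).Nonempty) with hNb
      have hlt2 : (Nb.image c).card < (range D).card := by
        rw [card_range]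
        exact lt_of_le_of_lt card_image_le hlt
      obtain ⟨i, hi, hi'⟩ := exists_mem_notMem_of_card_lt_card hlt2
      rw [mem_range] at hi
      have hnew : ∀ f ∈ S, (a ∩ f).Nonempty → i ≠ c f := by
        intro f hf hne hif
        apply hi'
        rw [hif]
        exact mem_image_of_mem _ (mem_filter.2 ⟨hf, hne⟩)
      refine ⟨Function.update c a i, ?_, ?_⟩
      · intro e he
        by_cases hea : e = a
        · subst hea; rw [Function.update_self]; exact hi
        · rw [Function.update_of_ne hea]
          exact hc1 e ((mem_insert.1 he).resolve_left hea)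
      · intro e he f hf hne hcap
        by_cases hea : e = a
        · subst hea
          have hfe : f ≠ e := fun h => hne h.symm
          rw [Function.update_self, Function.update_of_ne hfe]
          exact hnew f ((mem_insert.1 hf).resolve_left hfe) hcap
        · by_cases hfa : f = a
          · subst hfa
            rw [Function.update_self, Function.update_of_ne hea]
            rw [inter_comm] at hcap
            exact (hnew e ((mem_insert.1 he).resolve_left hea) hcap).symm
          · rw [Function.update_of_ne hea, Function.update_of_ne hfa]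
            exact hc2 e ((mem_insert.1 he).resolve_left hea) f
              ((mem_insert.1 hf).resolve_left hfa) hne hcap
  exact main H (Subset.refl H)

end Pool.Agent.Results.MP_a75eec_co.FewLargeEdges
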